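import Mathlib
import Pool.Agent.BBO.Voi

/-!
# A Bloch-Beilinson filtration on the zero-cycles of products of double coverings of projective
spaces branched along hyperplanes, diagonal complete intersections, determinantal hypersurfaces,
Dwork quintics, and hypersurfaces of degree (2, 2, 2, 2) which are even in three coordinates

We consider complex projective varieties of the following five kinds.

1. All double coverings `y ^ 2 = ∏ i, h i (x)` of the projective space of dimension `n ≥ 1` which
   are branched along `2 n + 2` hyperplanes, for arbitrary linear forms `h i`: there are no other
   conditions. They have `n ^ 2` moduli. For `n = 2` they are the K3 surfaces which are double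
   planes branched along six lines, for `n = 3` the double octics branched along eight planes. If
   the hyperplanes are in general position then they have resolutions which are Calabi-Yau
   manifolds (of the dimension `n`).
2. All smooth complete intersections `∑ j, c i j * x j ^ d = 0`, `i < r`, of `r ≥ 1` diagonal
   hypersurfaces of degree `d ≥ 2` in the projective space with `N` homogeneous coordinates, of
   dimension `n = N - r - 1 ≥ 1`, if `N > (r - 1) d + 1` and `2 N > r (d + 1)`. (The intersection
   is smooth if and only if all `r × r` minors of the matrix `c` are different from zero.) The
   canonical bundle is `O(u)` for `u = r d - N`, and the conditions are `u < d - 1`, and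
   `2 u < d - 1` if `r = 1` (if `r ≥ 2` then the second condition follows from the first one). For
   `N = r d` these are all smooth Calabi-Yau complete intersections of this form; for `u > 0` they
   are varieties of general type, e.g. the intersections of two diagonal cubics in the projective
   space of dimension `4` (`p_g = 5`), which have `2` moduli, and the Fermat hypersurfaces of
   degree `d ≤ 2 n + 2`. They have `(r - 1) n` moduli, and they are the coverings of the projective
   space of dimension `n` which are given by the `d`-th roots of the quotients of `N` linear forms
   in general position, `N < n + 2 + (n + 1) / (d - 1)` (if `r = 1`, i.e. `N = n + 2`: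
   `d < 2 n + 3`). For `d = 2`, `N = 2 n + 2` they are the complete intersections of `n + 1`
   diagonal quadrics, and the quotients by the even changes of signs of the coordinates are the
   double coverings of kind 1 in general position.
3. All hypersurfaces `det (A(z) - B(z) diag (w i ^ M i)) = 0` in the product of `b + l` projective
   lines with the affine coordinates `z j` (`j < b`) and `w i` (`i < l`), `M i ≥ 2`, where `b` is
   `0`, `1` or `2`, `l ≥ 1`, the dimension `n = b + l - 1` is positive, and the entries of the rows
   `i` of the `l × l` matrices `A`, `B` are forms of degree `e i` on the base `(P¹)^b`, with
   `∑ i, e i = 2` (`b = 1`) or `(2, 2)` (`b = 2`). For `b = 0` the entries are complex numbers. The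
   only condition is that the determinant is not identically zero; the hypersurfaces may be
   singular or reducible. Let `S` be the projective bundle of the vector bundle `⨁ O(e i)` over the
   base: its points are pairs of `z` and a row vector `a` up to scalars. The entries `α_i`, `β_i` of
   `a A(z)`, `a B(z)` are `2 l` sections of the tautological line bundle of `S`, and in general the
   hypersurface is birational to the covering `w i ^ M i = α_i / β_i` of `S`. If `M i = 2` for all
   `i` then the hypersurfaces are Calabi-Yau hypersurfaces of degree `(2, …, 2)`, and their
   quotients by the even changes of signs are in general birational to the double coverings of `S`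
   which are branched along the `2 l` divisors `α_i = 0`, `β_i = 0`.
   (a) `b = 0`: `S` is the projective space of dimension `l - 1`; for `M i = 2` the double coverings
   are those of kind 1. The hypergeometric hypersurfaces `∏ i, (1 - w i ^ M i) = λ`, `λ ≠ 0, 1`, are
   special cases (replace `w i` by `1 / w i` for `i > 0`; let the row `0` of `A` be
   `(1 - λ, -λ, …, -λ)`, the row `i > 0` be `(1, …, 1, 0, …, 0)` with `i + 1` entries `1`, and
   `B = 1`).
   (b) `b = 1`: `S` is a scroll of dimension `l` and degree `2`, which is birational to a quadric of
   rank `3` or `4` in the projective space of dimension `l + 1`, and we obtain the double coverings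
   of quadrics of rank at most `4` which are branched along `2 l` hyperplane sections, with
   `l ^ 2 + 2 l - 2` moduli: K3 surfaces with `6` moduli (`l = 2`), threefolds with `13` moduli,
   fourfolds with `22` moduli, and so on. (For `l = 1` the hypersurfaces are the curves
   `w ^ M = a(z) / b(z)`, where `a`, `b` are quadratic forms.)
   (c) `b = 2`, `l = 1`: the surfaces `w ^ M = a(z) / b(z)`, where `a`, `b` are forms of degree
   `(2, 2)`. For `M = 2` they are K3 surfaces with `10` moduli, the double coverings of rational
   elliptic surfaces which are branched along two fibres; the double planes branched along two
   (general) cubics are birational to them (blow up two base points of the pencil, contract the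
   line through them).
   (d) `b = 2`, `l = 2`: threefolds, for `M i = 2` with ordinary double points (for general `A`,
   `B`): for the degrees `(1, 1)`, `(1, 1)` the double coverings of the product of three projective
   lines which are branched along four surfaces of degree `(1, 1, 1)`, with `19` moduli; for the
   degrees `(0, 0)`, `(2, 2)` the elliptic threefolds `v ^ 2 = (u + a_1) (u + a_2) (u + a_3)
   (u + a_4)`, where the `a_i` are forms of degree `(2, 2)`, with `20` moduli.
4. All Dwork quintic threefolds `∑ i, x i ^ 5 = 5 t ∏ i, x i` (for `t ^ 5 = 1` they have ordinary
   double points).
5. All threefolds `F(s; w_1 ^ M_1, w_2 ^ M_2, w_3 ^ M_3) = 0` in the product of four projective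
   lines with the affine coordinates `s`, `w_i`, `M_i ≥ 2`, where `F ≠ 0` is a form of degree `2` in
   `s` and of degree `1` in each of the three other variables. There are no further conditions: the
   threefolds may be singular or reducible. If `M_i = 2` for all `i` then these are all Calabi-Yau
   hypersurfaces of degree `(2, 2, 2, 2)` in the product of four projective lines whose equation is
   even in three of the four affine coordinates; they form a family of dimension `17`
   (`3 * 2 ^ 3 - 1 - 3 - 3`), and for the general form `F` they are smooth.

A basis of the holomorphic forms of the highest degree `n` is given by one form `ω` for the kinds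
1 and 4 (the residue of the standard form, for kind 1 the form `Ω / y`), the forms `∏ x j ^ (b j -
1) ω` with `b j > 0`, `∑ j, b j = r d` for kind 2 (one form for `N = r d`), and the residues `ω_a
= Res ∏ w i ^ (a i - 1) dw_i ∏ dz_j / det` (kind 3) and `ω_a = Res ∏ w i ^ (a i - 1) dw_i ds / F`
(kind 5), `0 < a i < M i`. There are no holomorphic forms of the degrees `1, …, n - 1` (for the
kinds 1, 3 and 5 we mean the forms on the possibly singular variety; they are the forms on a
resolution if it is irreducible and the singularities are canonical). We consider the
automorphisms `y ↦ ζ y`, `ζ ^ 2 = 1` (kind 1), `x ↦ (ζ j * x j)`, `ζ j ^ d = 1` (kind 2), `w ↦ (h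
i * w i)`, `h i ^ M i = 1` (kinds 3 and 5), and `x ↦ (h i * x (π i))`, `h i ^ 5 = 1`, `∏ h i = 1`,
for permutations `π` (kind 4). Combinations of these automorphisms are correspondences; the
projectors to the invariants of finite groups of such automorphisms are included, and so the
results hold also for the quotients, e.g. for the mirror quintics and for all abelian coverings of
the projective space of dimension `n` of exponent `d` which are branched along at most `N`
hyperplanes in general position, where `N < n + 2 + (n + 1) / (d - 1)`, and `d < 2 n + 3` if `N =
n + 2` (quotients of varieties of kind 2).

Let `Y s`, `s ∈ S`, be a finite family of such varieties. For every product `Y ^ m = ∏ s, (Y s) ^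
(m s)` let `F^ν CH₀(Y ^ m)_ℚ` be generated by the products of zero-cycles on the factors such that
the sum of the dimensions of the factors on which they have degree zero is at least `ν`. This
filtration has the properties 1-4 of a Bloch-Beilinson filtration for all correspondences which
are combinations of morphisms `Y ^ m → Y ^ m'` all of whose components are constant or a factor
followed by one of the automorphisms. It is the only filtration with these properties; more
precisely, it is the only system of decreasing filtrations on the groups `CH₀(Y ^ m)_ℚ` (for all
`m`) such that `F⁰` is everything and the properties 2, 3 and 4 hold, and then `F¹` and `F²` are as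
in 1.

In particular (the last part of the statement, which follows from 4 for the alternating sums of
the permutations, `n` even, and for the symmetric sums, `n` odd) we obtain the conjecture of
Voisin (1996): if `p` is greater than the number of the holomorphic forms of degree `n` on `Y` then
`∑ σ, (sgn σ) ^ (n + 1) a_(σ 1) × ⋯ × a_(σ p) = 0` in `CH₀(Y ^ p)_ℚ` for all zero-cycles `a_i` of
degree zero on `Y`. If there is one form (kind 1, kind 2 for `N = r d`, kind 4, and the kinds 3 and
5 with `M i = 2` for all `i`) this is `a × b = (-1) ^ n b × a` in `CH₀(Y × Y)_ℚ` (`p = 2`). (It is
enough to have this for differences of points; in the statement we take the product of the factors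
`Y ^ m` and the sum over all permutations of equal factors, where one of the exponents `m s` is
greater than the number of the forms on `Y s`. The curves of the family which occur in the
description of `F²` are the varieties of dimension `1`: the double coverings of the projective line
branched along `4` points for kind 1, `N = r + 2` for kind 2, `b + l = 2` for kind 3.)

If a variety of kind 1 has canonical singularities then `CH₀` is `CH₀` of a resolution. Known cases
for kind 1: the curves (`n = 1`); Voisin proved her conjecture for the double planes branched along
two cubics (they are the surfaces in (c) with `M = 2`), so `n = 2` is known; the double coverings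
branched along hyperplanes which osculate a rational normal curve (`2 n - 1` moduli) have motives
of abelian type.

Proof of the uniqueness (`Pool.Agent.BBO.Uniq`). For a set `I` of factors and a point `y` the
combination `∏ i ∈ I, (1 - e i)` of morphisms, where `e i` replaces the coordinate `i` by `y i`, is
a projector which kills the forms of all degrees less than the dimension `n(I)` of the factors `I`.
By 4 it maps every cycle to `F^(n(I))`, and the images of points generate the filtration. If the
dimension of a product is less than `ν` then `F^ν` is zero by 2; so a cycle in `F^ν` is the sum of
such images over all `I` with `n(I) ≥ ν`.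

Proof for kind 1 (`Pool.Agent.DCV`, `Pool.Agent.BBO.KDbl`). The double covering is
`y ^ 2 = ∏ i, α_i(x) β_i(x)` with `n + 1` pairs of linear forms `α_i`, `β_i`. If `w` is a point of
the hypersurface `det (A - B diag (w i ^ 2)) = 0` of kind 3 (`b = 0`, `l = n + 1`) then there are
vectors `x ≠ 0` with `α_i(x) = w_i ^ 2 β_i(x)` for all `i`. They form a projective space, and
`(x, ∏ w_i β_i(x))` (`y = 0` if some `w_i` is `∞`) are points of the double covering. So a function
`f` of the points of the double covering which is constant along rational curves (more precisely:
zero on divisors of functions on curves) gives a function of `w` of the same kind, and we get all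
points of the double covering. The covering involution corresponds to the change of the sign of
any one of the `w_i`. So the statements for kind 1 follow from those for the functions for kind 3
which belong to the character `-1, …, -1` (they do not need that the determinant is not zero
identically).

Proof for kind 3 (`Pool.Agent.DTU`, `Pool.Agent.GOC`). Let `α_j`, `β_j` be the columns of `A(z)`,
`B(z)`, and `α'_j`, `β'_j` those at `z'`. For points `(z, w)`, `(z', w')` of the hypersurface let
`P_j = (w_j w'_j) ^ M_j` and `D_j = P_j β_j β'_jᵗ - α_j α'_jᵗ`. There is a row vector `a ≠ 0` which
is orthogonal to the `α_j - w_j ^ M_j β_j`, and `a D_j` is a multiple of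
`(α'_j - w'_j ^ M_j β'_j)ᵗ`; so `a N = 0` for `N = ∑ θ_j D_j`, with some `θ ≠ 0`. Conversely, for
given `z`, `z'`, `θ` and `w_j w'_j` every left null vector `a` of `N` gives a pair of points, and
so does every right null vector.
Let `E` be a function of two points which is constant along all rational curves (more precisely:
on divisors of functions on curves) and belongs to a character of the group of the roots of unity
all of whose components are nontrivial. It is zero if one of the `w_j`, `w'_j` is `0` or `∞` or
arbitrary.

(i) The fibres (`DTU.chain`): if `z`, `z'` are fixed then the value of `E` at the pair given by
the right null vector of `N` is `(-1) ^ (l - 1)` times the value at the pair given by the left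
null vector `a`. Induction on `l`: if `a₂ N` is a multiple of `(α'_j - U' β'_j)ᵗ` then the sum of
the values for `a` and for `a + t₁ a₂` is zero, where `a + t₁ a₂` is orthogonal to `α_j - U β_j`,
`U U' = P_j` (only `P_j` changes along the line), and the pairs of points with given `w_j`, `w'_j`
are the pairs for matrices of size `l - 1`.
(ii) For fixed `θ` and `w_j w'_j` the value of `E` at the pair given by the left null vector is a
function of the same kind of `(z, z')` on the hypersurface `det N(z, z') = 0` in
`(P¹)^b × (P¹)^b`, and `N(z', z) = N(z, z')ᵗ`. For `b = 1` the equation is a conic in the
symmetric square of the projective line. Along the tangent line at the point `{z, z'}` only one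
`P_j` has to be changed; the function `c - 1`, where `c ^ M_j` is the quotient of the values of
`P_j`, has two double zeros, the pairs `(z, z')` and `(z', z)`; so the sum of the values at these
two is zero. For `b = 2` it is a hypersurface of degree `(2, 2, 2, 2)`. The sum of the values at
the two points with given `z_1`, `z'_1`, `z_2` is zero (let `z'_2` and `P_j` vary), and so on; so,
by the argument for kind 5, the function is invariant under the exchange of `z` and `z'`, which
preserves the holomorphic form of this hypersurface.
(i) and (ii) imply that `E(y, x) = (-1) ^ (l - 1 + b) E(x, y)`.

Proof for kind 5 (`Pool.Agent.GOX`, `Pool.Agent.GOC`). For two points `(s, w)`, `(t, w')` of the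
threefold let `c i = w i * w' i` be the products of the coordinates and let `p`, `q`, `r` be their
powers `c i ^ M i`. The pairs of points with given `c` are a covering of the threefold `V` of the
points `(s, t, X, Y)` with `r α α' - β β' = 0`, where `α W + β` is the form `F` at `(s, X, Y)`, and
`α'`, `β'` are the coefficients at `(t, p / X, q / Y)`. `V` is a hypersurface of degree
`(2, 2, 2, 2)` with the involution `(s, t, X, Y) ↦ (t, s, p / X, q / Y)`. A function of two points
as above gives a function `E` of the same kind on `V`. It is zero for `X`, `Y` in `{0, ∞}`, and
the sum of `E` over the two points of `V` with given `s`, `t`, `X` is zero (let `Y` and `r` vary).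
We show that `E` and its transform under the involution have the sum zero (the quotient of `V` by
the involution has no holomorphic forms). The curve of the points with given `s`, `t` is a double
covering `y ^ 2 = G(X)` of the `X`-line, and `E` depends only on the point `(h / G, t / y ^ 3)` of
the elliptic curve `27 w ^ 2 = x ^ 3 - 48 I x - 64 J`, where `h`, `t` are the covariants of the
quartic `G` and `I`, `J` are its invariants. They are forms of degree `8`, `12` on the symmetric
square of the projective line, a plane. Through every point of this family of elliptic curves over
the plane there passes a rational curve over a line of the plane: `x` is a form of degree `4` with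
`x ^ 3 - 48 I x - 64 J = q g ^ 2`, `deg q = 2`, `deg g = 5` (Krull's principal ideal theorem). Along
this curve the sum of `E` and of its transform is constant, and over the points of the line where
the fibre is singular it is zero, since there the components of the fibre are rational curves
which meet `X = 0`, `X = ∞`, `Y = 0` or `Y = ∞`.
-/

set_option autoImplicit false

namespace Pool.Agent.Results.MP_08891c_ag.DiagonalDeterminantalPencils

open Pool.Agent.BBM Pool.Agent.BBX Pool.Agent.BBO

theorem result {S₁ S₂ S₃ S₄ S₅ : Type} [Fintype S₁] [Fintype S₂] [Fintype S₃] [Fintype S₄]
    [Fintype S₅] [DecidableEq S₁] [DecidableEq S₂] [DecidableEq S₃] [DecidableEq S₄]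
    [DecidableEq S₅] (Y : BBO.Fly S₁ S₂ S₃ S₄ S₅) (hY : Y.Ok) :
    -- 1: `F¹` is the part of degree zero, `F²` is the part of degree zero which is killed by all
    -- morphisms to a curve of the family (the kernel of the Albanese map)
    (∀ m z, z ∈ Fil Y.rat Y.n m 1 ↔ (z.sum fun _ c => c) = 0) ∧
    (∀ m z, z ∈ Fil Y.rat Y.n m 2 ↔ (z.sum fun _ c => c) = 0 ∧
      ∀ m' : S₂ ⊕ S₃ ⊕ S₄ ⊕ S₅ ⊕ S₁ → ℕ, ∑ s, Y.n s * m' s = 1 → ∀ f : Mor Y.P Y.G m m',
        z.mapDomain (f.app Y.act) ∈ Y.rat m') ∧
    -- the filtration is decreasing, `F⁰` is everything, and the properties 2, 3 and 4 hold
    Y.Conds (Fil Y.rat Y.n) ∧
    -- it is the only one with these properties (with arbitrary `F¹`, `F²`)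
    (∀ Φ, Y.Conds Φ → ∀ m ν, Φ m ν = Fil Y.rat Y.n m ν) ∧
    -- Voisin's conjecture (a case of 4): if the number of equal factors `Y s` is greater than the
    -- number of the holomorphic forms of the highest degree on `Y s` then the alternating (odd
    -- dimensions: symmetric) sum of the permutations of equal factors kills products of cycles of
    -- degree zero, e.g. `a × b = (-1) ^ n b × a` on `Y × Y` if there is one form
    ∀ m s, IsEmpty (Fin (m s) ↪ Y.Form s) → ∀ x y,
      ∑ τ : ∀ s, Equiv.Perm (Fin (m s)),
        (∏ s, (((Equiv.Perm.sign (τ s) : ℤˣ) : ℤ) : ℚ) ^ (Y.n s + 1)) •
          (cyc ℚ Finset.univ x y).mapDomain (fun z (i : Idx m) => z ⟨i.1, τ i.1 i.2⟩) ∈ Y.rat m :=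
  ⟨(conditions hY).2.2.1, (conditions hY).2.2.2.1, BBO.conds hY, fun Φ h => BBO.conds_uniq hY Φ h,
    fun _ _ h => voisin hY h⟩

end Pool.Agent.Results.MP_08891c_ag.DiagonalDeterminantalPencils
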