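import Pool.Agent.KEx.Main

/-!
# Kimura's finiteness for zero-cycles on varieties dominated by products of curves, K3 surfaces, elliptic surfaces

Let `k` be an algebraically closed field of characteristic zero. We consider projective varieties
`X` over `k` of the following kinds (`Var.Adm`).

(a) `X` is a closed subset of a projective space which is the closure of a one-parameter family of
curves of genus at most one: there are an elliptic curve `E : y ^ 2 = x ^ 3 - 3 α x + B` over the
algebraic closure `Om k` of `k(t)` and a rational map `φ = (G_i(x) + H_i(x) y)` from `E` to `X`,
defined over `Om k`, whose image is dense (`Fam`). So `X` is any curve (`φ` is constant), or any
surface which is covered by rational curves or by curves of genus one. Singularities are allowed.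

(b) `X` is a smooth quartic surface, a double plane with a smooth branch curve of degree six, or the
variety of lines of a smooth cubic fourfold.

We say that `X` is even (`Var.Evn`) if it is of the kind (b), or of the kind (a) such that moreover
(`IsEven`) the `j`-invariant of `E` is not constant, or one member of the family consists of rationally
equivalent points; and a combination of multisections of the family, of a degree different from zero,
is constant modulo rational equivalence.

We say that `X` belongs to a fibration over the line (`Var.Fib`, with the number `r`) if it is of the
kind (a) such that moreover (`IsFib`) `α` and `B` are polynomials in `t` of the degrees at most `4 r` and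
`6 r`, the curve `E` over `k(t)` is not constant, and the conjugates of `φ` differ from `φ` only by
translations: for every automorphism `τ` of `Om k` over `k(t)` there is a point `A` of `E` with
`τ(φ(P)) = φ(τ(P) + A)` for all points `P` of `E`. (Known, not formalised: let `S` be a smooth
projective surface without holomorphic `1`-forms and with a fibration in curves of genus one over the
projective line. Then all projective models `X` of `S`, and all projective varieties which `S`
dominates, belong to this fibration: `E` is the Jacobian of the generic fibre, and
`r = χ(O_S) = p_g(S) + 1`. The fibration need not have a section, and it may have multiple fibres.)

We say that the zero-cycles on a variety `Y` have Kimura's finiteness property (`Kim`) if every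
zero-cycle with rational coefficients is the sum of a cycle in `A` and a cycle in `B`, for two vector
spaces `A` and `B` of zero-cycles such that for all `n ≥ N` (for a number `N`) the cycles

  `∑ τ, sgn(τ) z (τ 0) × ⋯ × z (τ (n - 1))`, all `z j ∈ A`, and
  `∑ τ, z (τ 0) × ⋯ × z (τ (n - 1))`, all `z j ∈ B`

(sums over all permutations) are rationally equivalent to zero on `Y ^ n`, i.e. `Λ ^ n A` and
`Sym ^ n B` are mapped to zero in `CH₀(Y ^ n)`.

The theorem. Let `P_s`, `s < r`, be products of varieties of these kinds, equal or different.

1. Every `P_s` has the property, with `A = A_s`, `B = B_s`. If all factors of `P_s` are even then
`B_s = 0`: the map `Λ ^ n CH₀(P_s) → CH₀(P_s ^ n)` is zero for large `n`.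

2. Let `Y` be any projective variety such that the zero-cycles on `Y` are generated, modulo rational
equivalence, by the images `Φ_s(x)` of the points of the `P_s` under correspondences `Φ_s` from `P_s`
to `Y`. Then `Y` has the property, with `A = ∑ Φ_s(A_s)` (and the cycles which are equivalent to zero)
and `B = ∑ Φ_s(B_s)`.

3. The number `N`. If all factors `X_sa` of `P_s` belong to fibrations over the line, with the numbers
`r_sa`, then the map `Λ ^ n CH₀(P_s) → CH₀(P_s ^ n)` is zero for all `n > ∏_a r_sa`; and if this is so
for all `s` then `Λ ^ n CH₀(Y) → CH₀(Y ^ n)` is zero for all `n > ∑_s ∏_a r_sa`, for `Y` as in 2
(`DimLE`).

Here a correspondence (`IsCor`) attaches a zero-cycle on `Y` to every point of `P_s`, and is compatible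
with specialisation: for every map `x` from a curve to `P_s` there is a zero-cycle on `Y` over `Om k`
whose value at every place is rationally equivalent to `Φ_s(x(v))`, where `v` is the point of the curve
below the place. Morphisms, dominant rational maps between smooth varieties, and all correspondences
(algebraic cycles of the codimension `dim Y` on `P_s × Y`) for smooth `P_s` have this property (Fulton,
Intersection theory, 20.3). For `k = ℂ` the theorem is about all complex points, i.e. about the points
over a universal domain. If all factors are even and `Y` is smooth then it says that the birational
motive of `Y` with rational coefficients (Kahn and Sujatha: `Hom(h(X), h(Y))` is `CH₀` of `Y` over the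
function field of `X`) is evenly finite-dimensional in the sense of Kimura; apply the theorem over an
algebraically closed field which contains the function fields of all `Y ^ n`. This is weaker than the
finite-dimensionality of the Chow motive, which would need `Λ ^ n` for cycles of all dimensions.

The following known facts show what this means; they are not formalised.

* K3 surfaces. By the theorem of Bogomolov and Mumford (Mori and Mukai 1983) every projective K3
surface `S` is even. For a primitive ample class `H` there is a one-parameter family of curves in
`|H|` all of whose components have genus at most one, with a member `D₀` which is a sum of rational
curves. The moving components have genus one (`S` is not covered by rational curves), they have a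
limit which consists of components of `D₀` (one member of the family), and they meet `D₀`, which is
connected (one multisection).
* Regular surfaces which are not of general type. All smooth projective surfaces of Kodaira dimension
at most one without holomorphic `1`-forms are even: the rational surfaces, the K3 surfaces, and the
surfaces with a fibration over the projective line whose fibres are curves of genus one. For such a
fibration let `D` be a multisection; its conjugates over the function field of the line have the sum
`D_t`, the fibre of `D` over `t`, and all `D_t` are rationally equivalent. If the `j`-invariant is
constant then the surface is birational to a quotient `(E × C) / G` by a finite group `G` of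
automorphisms of `E` and `C`, with `C / G` the projective line; `G` is generated by the stabilisers of
the points of `C`, and one of them acts on the differential of `E` (there are no `1`-forms), so one
member is a connected union of rational curves. So `Λ ^ n CH₀(Y) → CH₀(Y ^ n)` is zero
for large `n` for all products `Y` of such surfaces, among them all K3 surfaces, and of varieties of
lines of cubic fourfolds; and for all varieties whose zero-cycles are generated by them: images,
quotients, the Hilbert schemes `S^[n]` and the moduli spaces of sheaves on K3 surfaces `S` (Marian and
Zhao; Shen, Yin and Zhao: two sheaves with the same second Chern class in `CH₀(S)` are rationally
equivalent), the eightfolds of Lehn, Lehn, Sorger and van Straten of cubic fourfolds without planes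
(Voisin: they are dominated by the square of the variety of lines).
* All surfaces which are not of general type. A smooth projective surface of Kodaira dimension at most
one is birational to a ruled surface, a K3 surface, an elliptic surface or an abelian surface; the
first three are of the kind (a), and an abelian surface is dominated by the square of a curve. So
Kimura's finiteness holds for the zero-cycles on all smooth projective surfaces which are not of
general type, on all products of such surfaces, curves and abelian varieties, and on everything which
they dominate.
* The number `N`. For a surface `S` without holomorphic `1`-forms with a fibration in curves of genus
one over the projective line, `Λ ^ n CH₀(S) → CH₀(S ^ n)` is zero for `n ≥ p_g(S) + 2`, and for a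
product `P` of such surfaces `Λ ^ n CH₀(P) → CH₀(P ^ n)` is zero if `n` is greater than the sum of all
`h ^ (i, 0)(P)`, which is the product of the numbers `p_g + 1`. This is the bound which the conditions 4
and 2 of Bloch and Beilinson predict if only the holomorphic forms matter in condition 4, as the
generalised Hodge conjecture implies; and it is exact for `k = ℂ`: for the sum of all `h ^ (i, 0)` the
map is not zero by Mumford's argument. For the K3 surfaces with a fibration in curves of genus one, i.e. for all K3
surfaces with Picard number at least `5` and for many others, it says that
`Λ ³ CH₀(S) → CH₀(S ³)` is zero, which is equivalent to Voisin's conjecture that `a × b = b × a` in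
`CH₀(S × S)` for all zero-cycles `a`, `b` of degree zero. (If there is a section then this is contained
in our hand-in QuotientsOfFibreProducts.)
* Some surfaces of general type: the bidouble planes branched along three cubics (geometric genus
three; the zero-cycles are generated by those of three K3 surfaces, the double planes branched along
two of the cubics), surfaces with a fibration such that the Jacobians of the fibres are isogenous to
products of elliptic curves, products of curves, and quotients.

Proof.
* The family of elliptic curves over `Om k` (`Pool/Agent/GT`, `Pool/Agent/QRT`). A fibre is covered by
the curve `w ⁶ = V`, `Σ ² = V ² + B V + α ³`, whose points are the sides (matrices of degree one) of a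
polygon. Two neighbouring sides can be exchanged by refactorisation of the product of two matrices,
which changes the sign of the class. So the alternating sum for `n` points only depends on the
product of all matrices, and if `n` is large there is a rational curve of such products, along which
the points of the base move, until the class is zero because one of the fibres is singular. For
isotrivial families there is another argument.
* Every point of `X` is the value of a point of `E` (`Pool/Agent/KAll/Value.lean`). So the zero-cycles
are generated by the values of cycles of degree zero on the fibres (even; for a constant family: the
differences of such values at two places are even, the values in one fibre are odd), and by the values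
of one multisection (one class, and an odd part: a quotient of the Jacobian of a curve).
* The number `N` (`Pool/Agent/KEx`, `Pool/Agent/KNum`). If `α` and `B` are polynomials of the degrees at
most `4 r` and `6 r` then the alternating sums of `n ≥ r` cycles of degree zero on the fibres vanish.
The conjugates of a cycle of degree zero on a fibre, moved by the translations, have the same class,
and the sum of the conjugates of one point of `E` has a constant class. For products one uses the exact
number of blocks in the second fundamental theorem.
* Products (`Pool/Agent/KSup`): a word in even and odd letters is multiplied by the sign of the
permutation of its odd letters; the second fundamental theorem of invariant theory for words with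
letters of different kinds gives the theorem for products. Correspondences: push-forward of cycles
(`Pool/Agent/KSup/Cor.lean`); finite sums of even parts are even, finite sums of odd parts are odd.
* The kinds (b): `Pool/Agent/QRT`, `Pool/Agent/Kim`, `Pool/Agent/CUB`, `Pool/Agent/FLN`. The plane
sections of a quartic surface with two double points, and the double coverings of the tangent lines
of the branch curve, are curves of genus one. The lines on a hyperplane section with a double point
of a cubic fourfold are parametrised by the symmetric square of the curve of the lines through this
point; the class of a point of the variety of lines is reconstructed from the transversals of pairs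
of lines.
-/

set_option autoImplicit false

namespace Pool.Agent.Results.MP_08891c_ag.FiniteDimensionality

open Pool.Agent Pool.Agent.KAll

/-- **Kimura's finiteness for the zero-cycles on products of varieties which are covered by curves of
genus at most one, quartic surfaces, double planes and varieties of lines, and on all varieties whose
zero-cycles are generated by correspondences from such products.** `P_s` is the product of the
varieties `X s a`. -/
theorem result {k : Type} [Field k] [IsAlgClosed k] [CharZero k] {r : ℕ} {m : Fin r → ℕ}
    (X : ∀ s, Fin (m s) → Var k) (hX : ∀ s a, (X s a).Adm) :
    ∃ A B : ∀ s, Submodule ℚ ((∀ a, (X s a).Pts k) →₀ ℚ),
      (∀ s, Kim (fun N => Rat (X s) N) (A s) (B s)) ∧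
      (∀ s, (∀ a, (X s a).Evn) → B s = ⊥) ∧
      (∀ (s) (d : Fin (m s) → ℕ), (∀ a, (X s a).Fib (d a)) →
        DimLE (fun N => Rat (X s) N) (∏ a, d a)) ∧
      ∀ (n : ℕ) (Y : Set (MvPolynomial (Fin (n + 1)) k))
        (Φ : ∀ s, (∀ a, (X s a).Pts k) → (GT.Pt Y k →₀ ℚ)), GT.Hom Y →
        (∀ s, IsCor (X s) Y (Φ s)) →
        (⨆ s, Submodule.span ℚ (Set.range (Φ s))) ⊔ RatZ Y = ⊤ →
        Kim (fun N => GT.Rat Y (Fin N))
          ((⨆ s, (A s).map (Finsupp.linearCombination ℚ (Φ s))) ⊔ RatZ Y)
          (⨆ s, (B s).map (Finsupp.linearCombination ℚ (Φ s))) ∧
        ∀ d : ∀ s, Fin (m s) → ℕ, (∀ s a, (X s a).Fib (d s a)) →
          DimLE (fun N => GT.Rat Y (Fin N)) (∑ s, ∏ a, d s a) :=
  KEx.roof X hX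

end Pool.Agent.Results.MP_08891c_ag.FiniteDimensionality
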