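import Pool.Agent.HGP.Fin
import Pool.Agent.HGP.UqC

/-!
# There is exactly one Bloch-Beilinson filtration on the zero-cycles of products of fibre products of
# hypergeometric fibrations over curves

Let `k` be an algebraically closed field of characteristic `0` (for example `ℂ`), and let `C i`,
`i : ι`, be smooth projective curves over `k` of arbitrary genus, given by their function fields.

**The varieties.** A component over the curve `C i` is given by `m ≥ 1`, exponents
`M_1, …, M_m ≥ 1`, divisors `E_1, …, E_m` on the curve, sections `B_j`, `C_j` of the line bundles
`O(E_j)` and a section `A` of `O(∑ E_j)`. All sections are different from zero and `A` is not a multiple
of `∏ B_j`; otherwise they are arbitrary. It is the hypersurface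

  `∏_(j ≤ m) (B_j(s) v_j ^ M_j - C_j(s) u_j ^ M_j) = A(s) ∏_(j ≤ m) v_j ^ M_j`

in `C i × (ℙ¹) ^ m` with the coordinates `s` and `(u_j : v_j)`: a family over the curve of the
hypersurfaces `∏ (1 - C_j u_j ^ M_j / B_j) = A / ∏ B_j`. For `C_j = B_j` it is the pull-back to the curve
of the pencil `∏ (1 - u_j ^ M_j) = λ`, whose periods are the hypergeometric functions
`_m F_(m - 1)(α_1, …, α_m; 1, …, 1; λ)` with `α_j ∈ {1 / M_j, …, (M_j - 1) / M_j}` (for `m = 4`, `M_j = 5`
this includes the periods of the mirror quintics), up to twists by the `C_j / B_j`. For `m = 1` it is
the cyclic covering `u ^ M = (B - A) / C` of the curve. A variety `Z` of the class is the fibre product
over the curve `C i` of finitely many, equal or different, components (without components it is the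
curve itself), of dimension `1 + ∑ (m_q - 1)`. It is connected: `deg ∑ E_j > 0`, since `A` is not a
multiple of `∏ B_j` (for `m = 1` and `B - A = c C`, `M` copies of the curve, the hypersurface contains the
lines over the zeros of `C`, which connect the copies). Examples:

* all curves; fibre products of cyclic coverings of curves;
* for `m = 2`: elliptic surfaces and surfaces fibred in curves `(1 - x ^ M)(1 - y ^ N) = λ`, and
fibre products of such surfaces over the curve, for example threefolds of Schoen type (fibre
products of two rational or other elliptic surfaces, equal or not), self-products of all orders of
the elliptic modular surface with the fibres `(1 - x ^ 2)(1 - y ^ 2) = λ` (the Legendre family, up to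
isogeny) and of its twists (Kuga-Sato type, singular models), the same over every curve;
* hypersurfaces of degree `(2, …, 2)` in `(ℙ¹) ^ (m + 1)` of this form, and all other fibrations of the
first paragraph with fibres of every dimension, and mixed fibre products.

The varieties may be singular, reducible and not reduced (if the equation of a component vanishes
identically at a point of the curve then the fibre is larger; we call `1 + ∑ (m_q - 1)` the dimension in
all cases). We consider arbitrary finite products (over `k`) `X 0 × ⋯ × X (r - 1)` of varieties of this
class, over equal or different curves, of equal or different dimensions.

**The correspondences** (`Mor`, `Comp`): all combinations with rational coefficients of the following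
morphisms between such products; they are the identity on the curves. Every factor `Y b` is mapped
constantly, or it is the image of a factor `X a` over the same curve: for a set `A` of components of
`Y b` the component `q ∈ A` of the image is the component `π q` of the point of `X a`, with a
permutation of the coordinates (which preserves the equation) and multiplications of the coordinates
by roots of unity of order `M_j`; the components `q ∉ A` are arbitrary sections over the curve. The
components with `m = 1` (cyclic coverings) must not be sections, and they are images of different
components. So for `m ≥ 2` diagonals of fibre products are included, and for all `m` the permutations
of equal components, the projections to some of the components and to the curve, the projectors to the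
characters of the groups `μ_M`, and their combinations with the symmetric groups.

**The filtration** (`Fil`). `F^ν CH₀(X 0 × ⋯ × X (r - 1))_ℚ` is the group of all classes which are mapped
to zero by all projections with an image of dimension less than `ν`: the factors of level `none` are
mapped to a point, and the factors of level `some T` to the fibre product of their components in `T`
(to their curve for `T = ∅`). We show that these filtrations have the properties 1-4 of a
Bloch-Beilinson filtration, and that there is no other system of filtrations with these properties.

**The forms** (`Lab`, `AdmLab`). For every finite set `T` of components of `Z` we consider the forms of
degree `1 + ∑_(q ∈ T) (m_q - 1)`, the residues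
`ω_j ∏_(q ∈ T) (∏_l u_(q, l) ^ (a_(q, l) - 1) du_(q, 1) ⋯ du_(q, m) / dΦ_q)`, `0 < a_(q, l) < M_(q, l)`, where `Φ_q` is
the equation of the component and the `ω_j` are a basis of the sections of `K + ∑_(q ∈ T) ∑_l E_(q, l)` (`K`
a canonical divisor of the curve): `D + g - 1` sections for `T ≠ ∅`, `D = deg ∑ E > 0`, and `g` sections
for `T = ∅`, where `g` is the genus of the curve. For smooth `Z` all holomorphic forms are sums of these
forms (and of constants). For singular `Z` they are sections of the dualizing sheaves of the fibre
products of the components in `T`, and the holomorphic forms of a resolution are a subspace, so that
the assumption in `grad` is stronger. The forms on a product are the exterior products of the forms on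
the factors. The pull-back of a form with labels by a morphism is zero or a multiple of a form with
labels, by the product of a sign (`sgnF`: the permutations of the factors, of the components and of the
coordinates; the component `q` has degree `m_q - 1`) and of powers of roots of unity (`fct`). It is zero
if a factor with a form is mapped constantly, if a component in `T` is mapped by a section or two
components in `T` are images of the same component, or if two factors with forms are images of the
same factor (`IsPull`, `KillsForms`).

**The properties** (`Conds`, `IsBB`). `rat`, `anti`: a decreasing filtration of the zero-cycles modulo
rational equivalence. `zero`: `F⁰` is everything. `one`: `F¹` is the part of degree zero. `two`: `F²` is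
the kernel of the Albanese map: the cycles of degree zero whose images in the curve of every factor,
the fibre product of its components with `m = 1`, are rationally equivalent to zero. (The curve may be
singular. The components with `m ≥ 2` do not contribute to the Albanese variety.) `top`:
`F^(dim + 1) = 0`. `map`: correspondences respect the filtration. `grad`: a correspondence which is zero
on the holomorphic forms of degree `ν` is zero on `gr^ν`. In the uniqueness theorem (`Conds`) nothing
is assumed about `F¹` and `F²`. (Two curves `C i`, `C i'` with `i ≠ i'` are not compared.)

Special cases of 2 and 4, for exponents `M_j = 2`: (a) for a variety `Z` of the class of dimension `n`
and zero-cycles `z_j` on `Z` which are anti-invariant for the multiplication of every coordinate by `-1`,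
`∑_τ sgn(τ) ^ (n + 1) z_τ(1) × ⋯ × z_τ(N) = 0` in `CH₀(Z ^ N)_ℚ` for `N ≥ D + g` (here `D + g - 1` is the
number of the forms of highest degree). (b) The permutation of two equal components of a fibre
product acts on the anti-invariant part of `CH₀(Z)_ℚ` as `(-1) ^ (m - 1)`, the sign on the forms of
highest degree. For other exponents it is the same with projectors to orbits of characters.

Proof. Existence: by the second fundamental theorem for the symmetric groups the properties follow
from (1) the relation for `g + 1` points of a curve of genus `g`, (2) a vanishing theorem (`vanish`) for
`N = D + g` points of one fibre product `Z`: let `E` be a function on `Z ^ N` with values in a vector
space, compatible with rational equivalence, on which the groups `μ_M` act in every variable by the same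
nontrivial characters; then `∑_π sgn(π) ^ (n + 1) E(z_π(1), …, z_π(N)) = 0`, and (3) the permutations of the
components and coordinates act on such functions of one point by the sign (`blk`). For (2): to the
coordinates `x_j = 1 - C_j u_j ^ M_j / B_j` of a component one attaches a difference operator of order one
with coefficients of period `m` and the multiplier `∏ x_j = λ(s)`, and to `N` points the products of
their operators, one for every component. The orders of the multipliers give other factorisations of the
same operators; two neighbouring factors are exchanged by birational maps, at the same time for all
components, and `E` is multiplied by the sign `(-1) ^ (n - 1)`. So the sum over all orders is a function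
of the operators. A count of constants with Krull's theorem gives a rational curve in the space of the
tuples of operators on which the divisors `∑ s_i` move in a pencil; it leads to points at which the
function is zero. For (3): two points of the same fibre have equal multipliers, and the exchange of the
factors is a limit case. A function which is invariant under the rotations of a coordinate of a
component does not depend on this component (`ind`).

Uniqueness (`uniq`): the projectors (constant; for every set `T` of components the product of
`1 - average over the rotations` for the components in `T` and of the averages for the others) are
combinations of morphisms, idempotent with the sum `1`, and kill all forms of degree different from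
the dimension of their level.
-/

set_option autoImplicit false

namespace Pool.Agent.Results.MP_08891c_ag.HypergeometricProducts

open Pool.Agent.HGP

theorem result {k : Type} [Field k] [IsAlgClosed k] [CharZero k] {ι : Type} (C : ι → Crv k) :
    -- the filtration by the projections to products of smaller dimension has the properties 1-4
    IsBB C (fun _ X ν => Fil X ν) ∧
    -- and it is the only filtration with these properties, even without the description of `F¹`, `F²`
    ∀ Φ : ∀ r : ℕ, (Fin r → Hyp C) → ℕ → Submodule ℚ ((Fin r → Pt C) →₀ ℚ), Conds C Φ →
      ∀ (r : ℕ) (X : Fin r → Hyp C) (ν : ℕ), (∀ a, (X a).Adm) → Φ r X ν = Fil X ν :=
  ⟨isBB_fil C, fun _ h r X ν hX => uniq h (isBB_fil C).toConds r X hX ν⟩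

end Pool.Agent.Results.MP_08891c_ag.HypergeometricProducts
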