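import Pool.Agent.QTC.Main

/-!
# The Bloch-Beilinson filtration on the zero-cycles of products of quotients of fibre products and
of surfaces with a fibration in curves of genus one

Let `k` be an algebraically closed field of characteristic `0`. We consider the products `X 0 × ⋯ ×
X (m - 1) × Z 0 × ⋯ × Z (l - 1)`, where the `X j` are varieties of the class `WC` and the `Z j` are
surfaces of the class `TS`.

**The class `WC`.** It consists of the following varieties `X = X' / G`. Let `G` be a finite group
of automorphisms of a smooth projective curve `C'` over `k` (given by its function field `L`), and
`C = C' / G`. Then `X'` is equal to `C'`, or it is a variety of dimension `N + 1` over `C'` given by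
equations

  `y_b ² = ∏ z_i (x_i ³ + A_i x_i z_i ² + B_i z_i ³)`, `b < r`,

where the product is over the indices `i` of the block `b`, `D_i` are divisors on `C'`, and `A_i`
and `B_i` are sections of `O(2 D_i)` and `O(3 D_i)`. The discriminants are not zero, and the sums of
the `D_i` over the blocks have positive degrees. The group `G` permutes the indices of every block
in such a way that `g(A_i) = A_(g i)`, `g(B_i) = B_(g i)`, `g(D_i) = D_(g i)`, and it acts on `X'`
by `x_(g i)' = x_i`, `y_b' = ± y_b` with the sign of the permutation of the indices of the block (so
that the forms `⋀ i, dx_i / ∏ b, y_b` are invariant). For all points `c` of `C'` and the stabilizer
`G_c` of `c` we suppose that the `D_i(c)` are divisible by the order of the stabilizer of `i` in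
`G_c` and that the sums of the `D_i(c)` over the blocks are divisible by `2 |G_c|` (the bundles
descend to `C`), and that `∑ i, min (3 ord A_i) (2 ord B_i) < 12 |G_c|`: the holomorphic forms on a
resolution of `X` are the expected ones. All `A_i` and `B_i` are different from zero, or the group
`G` is trivial. Examples:

* `N = r = 0`: all smooth projective curves of arbitrary genus;
* `G = 1`, `N = r`: all fibre products `S_1 ×_C ⋯ ×_C S_N` of elliptic surfaces with section over a
  curve `C` with canonical singularities, in particular all fibre powers of the universal elliptic
  curves with level structure over the modular curves `X(n)`, `n ≥ 3` (Kuga-Sato varieties), whose
  holomorphic forms of degree `N + 1` are the cusp forms of weight `N + 2`; for `r = 1` the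
  quotients of such fibre products by the even changes of signs;
* `G` cyclic of order `2`, `N = 2`, `r = 1`: let `C' → C` be a double covering and `E` an elliptic
  curve over the function field `L` of `C'` which is not isomorphic to its conjugate `E'` over the
  function field `K` of `C`. The threefold `X` over `C` has the general fibre `(E × E') / (±1, ±1)`
  modulo the exchange of the factors over `K`: it is the quotient of the Weil restriction of `E` (an
  abelian surface over `K`) by `-1`, i.e. a family of Kummer surfaces over `C` (with a twist), whose
  Picard number is `18` for general `E`. For `C = ℙ¹` and suitable degrees these are Calabi-Yau
  threefolds fibred in Kummer surfaces, with many moduli. (By the theorem of Shioda and Inose the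
  families of K3 surfaces with lattice polarizations by `U + E_8 + E_8` and `U + E_8 + E_8 + <-2 n>`
  correspond to such families of Kummer surfaces, e.g. the fibrations on the mirror quintic and on
  the other Calabi-Yau threefolds with hypergeometric periods; this is not used and not part of the
  theorem.)
* in general: the quotients by the even changes of signs of the Weil restrictions of elliptic curves
  over finite extensions of the function field of a curve `C`, up to a twist by a quadratic
  character (which can be removed by twisting the elliptic curve), and products over `C` of such
  quotients.

**The class `TS`.** It consists of all projective surfaces `Z` with a fibration in curves of genus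
one over a smooth projective curve `C` of arbitrary genus `g` with `χ = χ(O_Z) > 0`: all smooth
surfaces, and all singular ones for which the fibration is a morphism to `C`, or for which `C` is
the line. (`χ(O)` is that of a resolution of the singularities; in the remaining case `χ(O_Z) = 0`
all smooth fibres are isomorphic.) We do not suppose that the fibration has a section, and it may
have multiple fibres. The Jacobian fibration has a minimal Weierstrass equation `y ² = x ³ - 3 a x +
b` over `C`, where `a` and `b` are sections of `O(4 D)` and `O(6 D)`, `deg D = χ`. The data are the
function field `L` of `C`, the elements `a` and `b` of `L` (of this curve, or of a curve `E`
isogenous to it), the equations of `Z`, the homogeneous coordinates of a map `φ` from `E` over the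
algebraic closure of `L` to `Z`, and the images of the points of `Z` in `C`. The geometric genus of
`Z` is `χ + g - 1`, the irregularity is `g`. Examples: all elliptic surfaces with `χ > 0` with or
without section over all curves, Enriques surfaces and Dolgachev surfaces (`C = ℙ¹`, `χ = 1`), all
`K3` surfaces with a pencil of elliptic curves (`C = ℙ¹`, `χ = 2`; all `K3` surfaces with Picard
number at least `5` are of this kind), and surfaces of Kodaira dimension `1` for all `χ > 0`, of
arbitrary index and irregularity.

**The correspondences** are the combinations of products of correspondences whose components are

* for the factors of the class `WC`: constant, or a factor of the class `WC` followed by fibrewise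
  multiplications by `1`, `-1` or `0` in the blocks;
* for the surfaces of the class `TS`: constant, or a factor `Z` of the class `TS` followed by a
  correspondence over `C` from `Z` to `W` of the form `φ_Z(q P) ↦ ∑ i, e_i φ_W(p_i P + A_i)` for
  integers `p_i` and `q > 0`, rational numbers `e_i` and points `A_i` of `E` over the algebraic
  closure, which respects the action of the Galois group and specialisations (modulo rational
  equivalence), see `Pool.Agent.QTC.TCor`. Here `Z` and `W` are given by the same curve `E` (their
  Jacobian fibrations are isogenous). If `E` has no complex multiplication and `Z` is smooth, then
  every cycle on `Z × W` which is relative over `C` acts on the zero-cycles as a correspondence of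
  this form: for example all rational maps over `C` and their transposes, and the intersection of
  the fibres of `W` with multisections (`p_i = 0`).

There are no correspondences between the factors of the two classes (but the class `WC` contains all
elliptic surfaces with section with `χ > 0`, and all curves).

**The theorem.** There is a filtration `F^ν CH₀` of the Chow groups of zero-cycles with rational
coefficients of all such products with the properties

1. `F⁰` is everything, `F¹` is the part of degree zero, and `F²` is the kernel of the Albanese map;
2. `F^(dim + 1) = 0`; 3. correspondences respect the filtration; 4. a correspondence which acts as
zero on the holomorphic `ν`-forms maps `F^ν` to `F^(ν + 1)`.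

It is the only decreasing filtration with `F⁰ = CH₀` and 2, 3, 4, and it is given by this formula.
For a surface `W` of the class `TS` with a multisection of degree `n` let `δ(c)` be `1 / n` times
the sum of its points over the point `c` of `C`. The class of a point `w` over `c` is the sum of the
classes `e_0 = δ(c_0)` for a constant point `c_0`, `e_1 = δ(c) - δ(c_0)` and `e_2 = w - δ(c)`. For
the class `WC` the parts `e_T` of the class of a point on the product of the `X j` belong to sets
`T` of pairs `(j, none)` and `(j, b)` (`b` is a block of `X j`); they are alternating sums of the
images of the point under the projections to products of base curves and of fibre products of the
blocks. Then `F^ν` is generated by the products `e_T × ∏ j, e_(λ j)` with `dim T + ∑ j, λ j ≥ ν`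
(`Pool.Agent.QTC.FilM`).

In property 1 the Albanese variety of the product is the product of the Jacobians of the base curves
of all factors, and so the kernel of the Albanese map consists of the classes of degree `0` whose
images in the groups `CH₀` of these curves (with rational coefficients) are zero (theorem of Abel
and Jacobi).

The holomorphic forms on (a resolution of) the product have the basis of the products of the
following forms on the factors: for the `X j` the differentials `ω` of the first kind on the base
curve (`g` forms), and for every non-empty set `S` of blocks the forms `ω ∧ ⋀ i, dx_i / ∏ b, y_b`
(`i` and `b` in `S`), where `ω` runs through a basis of the `G`-invariant differentials on `C'` with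
`2 div ω + ∑ D_i ≥ 0` (`n_S + g - 1` forms, `2 n_S |G| = deg ∑ D_i > 0`, `g` is the genus of `C`);
for the `Z j` the differentials of the first kind on the base curve, and the forms `ω ∧ dx / y` with
`div ω + D ≥ 0` (`χ + g - 1` forms).

The groups `CH₀` are the Chow groups of the projective varieties `X = X' / G` and of the given
models `Z`, in the sense of Fulton. The groups for `X` are equal to those of resolutions of the
singularities if `∑ i, min (3 ord A_i) (2 ord B_i)` is less than `12` times the order of the kernel
of the action of `G_c` on the indices, at all points `c` (for example if `G = 1`): then the
singularities are log terminal and the fibres of the resolution are rationally chain connected. They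
are also equal if `N ≤ 2`: then the exceptional surfaces over the other points are rational surfaces
or quotients of abelian surfaces with `p_g = q = 0` (theorem of Bloch, Kas and Lieberman).

**Proof.** The Chow group of the product is a quotient of the tensor product of those of the
factors, so the main part of the proof are two theorems: combinations of correspondences which act
as zero on the forms of the type `T` act as zero on the parts `e_T` (for the class `WC`), and the
same for the products of the parts `e_2` for the class `TS`.

The class `WC`. It suffices to show this for the classes `{p_0} × ⋯ × {p_(n - 1)}`, where `{p}` is
the alternating sum over the changes of signs (for curves: for `(p_0 - o) × ⋯ × (p_g - o)`, using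
the theorem of Riemann). The elliptic curve `y ² = x ³ - 3 α x + B` is covered by the curve `Σ ² = V
² + B V + α ³`, `V = w ⁶` with `x = w ² + α / w ²`, `y = Σ / w ³`. To `n` points of this conic over
the points `s_j` of the curve one attaches a product of matrices of degree one over the polynomials
in one variable, which is a symmetric function of the `s_j` and of the choices of the square roots
of the `α_j ³`: different orders of the factors and choices of the roots give up to `n! 2 ^ n`
factorisations of the same matrix, and the class `{p_0} × ⋯ × {p_(n - 1)}` changes only by the sign
of the permutation of the factors. For a variety with a group we choose points `s_j` of `C'` over
the points of a divisor of `C`; the class does not depend on this choice, since it changes by the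
signs of the permutations of the factors, which are the signs in the definition of the action. So
the class (symmetrised over the remaining finite choices) becomes a function on a variety which is
fibred over the symmetric product `C ^ (n)`, more precisely over its linear systems, whose dimension
is at least `n - g`. A count of constants (Krull's theorem) shows that there are rational curves in
this variety through all of its points which lead to points at which the class is zero. For an index
`i` with `A_i = 0` or `B_i = 0` the curves are twists of a constant curve; here (for the trivial
group) the class is antisymmetric in the coordinates on the constant curve, and it depends only on
these coordinates and on the product of the twists, so that it is a function of one point of the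
curve with the coefficients `∏ j, A_i(s_j)`, `∏ j, B_i(s_j)`.

The class `TS`. Let `h_v(P)` be the class of degree zero which is the difference of the values of
`φ(P + Q)` and `φ(Q)` at the place `v` of the closure of `k(t)`. `h_v` is a homomorphism, the parts
`e_2` are combinations of the classes `h_v(P)`, and a correspondence as above maps `h_v(P)` to `∑ i,
e_i p_i / q` times the class `h_v(P)` of the target. The classes `h_v(P)` of `n ≥ χ + g` surfaces
`Z_1, …, Z_n` with the same curve `E` (for different torsors, models and isogenies) satisfy `∑ ±
h_(v_σ(1))(P_σ(1)) × ⋯ × h_(v_σ(n))(P_σ(n)) = 0`: one applies the theorem on rational curves in
spaces of products of matrices, over the linear systems on `C`, to the image of the diagonal map of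
`E` to `Z_1 × ⋯ × Z_n`. Then the second fundamental theorem for products of symmetric groups gives
the assertion; the remaining components are the multisections, which reduce to the product of the
curves.

The uniqueness: the system contains idempotent correspondences with the sum `1` for the parts `e_T ×
∏ j, e_(λ j)`, which act as zero on the forms of all degrees which are different from the weight
`dim T + ∑ j, λ j`. By 4 the image of such an idempotent is contained in all `F^ν` up to the weight,
and it meets the next one only in zero by 2.
-/

set_option autoImplicit false

namespace Pool.Agent.Results.MP_08891c_ag.QuotientsOfFibreProducts

open Pool.Agent.QTC

/-- There is a filtration with the properties of a Bloch-Beilinson filtration, and it is the only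
decreasing one (also without the conditions on `F¹` and `F²`). -/
theorem result {k : Type} [Field k] [IsAlgClosed k] [CharZero k] :
    ∃ Φ : Filtration k, IsBB Φ ∧ ∀ Ψ : Filtration k, Conds Ψ → Ψ = Φ :=
  main k

end Pool.Agent.Results.MP_08891c_ag.QuotientsOfFibreProducts
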